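import Pool.Agent.KS6_11.DiscOrb.Fun

/-!
# Discrete orbits of cylindrical transformations over every irrational rotation

For every irrational `α` there is a continuous function `φ` on the circle with integral zero such
that the set of the points over which the orbits of `T_φ (x, t) = (x + α, t + φ x)` are discrete
has Hausdorff dimension one. We take `φ x = ∑ ± A_k (sin (2π Q_k (x + α)) - sin (2π Q_k x))` for a
rapidly increasing sequence of denominators `Q_k` of good rational approximations of `α`, with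
`A_k = 1 / ((k + 1) (k + 2) ‖Q_k α‖)`. The points with `Q_k x ∈ [0, 1/16]` modulo `1` for all `k`
form a set of dimension one, and the Birkhoff sums over them tend to infinity.
-/

set_option autoImplicit false

open Filter Set Topology MeasureTheory

namespace Pool.Agent.Results.MP_7c4bf8_an.EveryIrrational

/-- The Birkhoff sums `φ^(n) (x)` over the rotation by `a`: the sum of the `φ (x + j a)`, `0 ≤ j < n`,
for `n ≥ 0`, and minus the sum of the `φ (x + j a)`, `n ≤ j ≤ -1`, for `n < 0`. -/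
noncomputable def birkhoff (a : UnitAddCircle) (φ : UnitAddCircle → ℝ) :
    ℤ → UnitAddCircle → ℝ
  | Int.ofNat n, x => ∑ j ∈ Finset.range n, φ (x + j • a)
  | Int.negSucc n, x => -∑ j ∈ Finset.range (n + 1), φ (x - (j + 1) • a)

/-- The set `D(α, φ)` of the `x` with `|φ^(n) (x)| → ∞` for `|n| → ∞`: the points of the circle
over which the orbits of the cylindrical transformation are discrete. -/
def discreteSet (a : UnitAddCircle) (φ : UnitAddCircle → ℝ) : Set UnitAddCircle :=
  {x | Tendsto (fun n : ℤ => |birkhoff a φ n x|) cofinite atTop}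

/-- The set `D^{-+}(α, φ)` of the `x` with `φ^(n) (x) → +∞` for `n → +∞` and `φ^(n) (x) → -∞` for
`n → -∞`. -/
def discreteMinusPlus (a : UnitAddCircle) (φ : UnitAddCircle → ℝ) : Set UnitAddCircle :=
  {x | Tendsto (fun n : ℤ => birkhoff a φ n x) atTop atTop ∧
    Tendsto (fun n : ℤ => birkhoff a φ n x) atBot atBot}

lemma minusPlus_subset (a : UnitAddCircle) (φ : UnitAddCircle → ℝ) :
    discreteMinusPlus a φ ⊆ discreteSet a φ := by
  rintro x ⟨h1, h2⟩
  show Tendsto _ _ _
  rw [Int.cofinite_eq]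
  exact tendsto_sup.2 ⟨tendsto_abs_atBot_atTop.comp h2, tendsto_abs_atTop_atTop.comp h1⟩

lemma birkhoff_eq (a : UnitAddCircle) (φ : UnitAddCircle → ℝ) (n : ℤ) (x : UnitAddCircle) :
    birkhoff a φ n x
      = Pool.Agent.Results.MP_7c4bf8_an.DiscreteOrbitsDimOne.birkhoff a φ n x := by
  cases n <;> rfl

open Pool.Agent.KS6_11.DiscOrb

lemma good_mem {α : ℝ} {Q : ℕ → ℕ} {p : ℕ → ℤ} (D : Data α Q p) {x : UnitAddCircle}
    (hx : Good Q x) : x ∈ discreteMinusPlus (α : UnitAddCircle) (f α Q p) := by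
  have key : ∀ C : ℝ, ∃ B : ℤ, 0 ≤ B ∧ ∀ m : ℤ, (B ≤ m →
      C ≤ birkhoff (α : UnitAddCircle) (f α Q p) m x) ∧ (m ≤ -B →
      birkhoff (α : UnitAddCircle) (f α Q p) m x ≤ -C) := by
    intro C
    obtain ⟨B, hB⟩ := exists_nat_ge (max (1 / dl α Q p 255) ((2 * C) ^ 2))
    refine ⟨B, by positivity, fun m => ⟨fun hm => ?_, fun hm => ?_⟩⟩
    · have h0 : m = 1 * ((m.natAbs : ℕ) : ℤ) := by
        rw [one_mul, Int.natCast_natAbs, abs_of_nonneg (by omega)]
      have hBm : (B : ℝ) ≤ (m.natAbs : ℝ) := by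
        have : B ≤ m.natAbs := by omega
        exact_mod_cast this
      have h1 := birk_ge D hx (ε := 1) (Or.inl rfl) m.natAbs
        (((le_max_left _ _).trans hB).trans hBm)
      rw [← h0, ← birkhoff_eq] at h1
      have h3 : (2 * C) ^ 2 ≤ (m.natAbs : ℝ) := ((le_max_right _ _).trans hB).trans hBm
      have h4 : 2 * C ≤ Real.sqrt m.natAbs := Real.le_sqrt_of_sq_le h3
      push_cast at h1
      linarith
    · have h0 : m = -1 * ((m.natAbs : ℕ) : ℤ) := by
        rw [Int.natCast_natAbs, abs_of_nonpos (by omega)]; ring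
      have hBm : (B : ℝ) ≤ (m.natAbs : ℝ) := by
        have : B ≤ m.natAbs := by omega
        exact_mod_cast this
      have h1 := birk_ge D hx (ε := -1) (Or.inr rfl) m.natAbs
        (((le_max_left _ _).trans hB).trans hBm)
      rw [← h0, ← birkhoff_eq] at h1
      have h3 : (2 * C) ^ 2 ≤ (m.natAbs : ℝ) := ((le_max_right _ _).trans hB).trans hBm
      have h4 : 2 * C ≤ Real.sqrt m.natAbs := Real.le_sqrt_of_sq_le h3
      push_cast at h1
      linarith
  constructor
  · rw [tendsto_atTop]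
    intro C
    obtain ⟨B, -, hB⟩ := key C
    filter_upwards [eventually_ge_atTop B] with m hm using (hB m).1 hm
  · rw [tendsto_atBot]
    intro C
    obtain ⟨B, -, hB⟩ := key (-C)
    filter_upwards [eventually_le_atBot (-B)] with m hm
    have := (hB m).2 hm
    rwa [neg_neg] at this

lemma good_pt {Q : ℕ → ℕ} (h : Fast Q) {y : ℝ} (hy : 0 ≤ y) :
    Good Q ((pt Q y : ℝ) : UnitAddCircle) := by
  intro k
  obtain ⟨t, j, h1, h2, h3⟩ := pt_good h hy k
  refine ⟨t, h1, h2, ?_⟩
  rw [Pool.Agent.Results.MP_7c4bf8_an.DiscreteOrbitsDimOne.zsmul_coe]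
  have h4 : ((((Q k : ℕ) : ℤ) : ℝ)) * pt Q y = ((j : ℤ) : ℝ) + t := by
    push_cast
    exact h3
  rw [h4, AddCircle.coe_add, Pool.Agent.Results.MP_7c4bf8_an.DiscreteOrbitsDimOne.int_coe, zero_add]

lemma dimH_le_one (S : Set UnitAddCircle) : dimH S ≤ 1 := by
  refine (dimH_mono (subset_univ S)).trans ?_
  have h1 : LipschitzWith 1 (fun x : ℝ => (x : UnitAddCircle)) := by
    apply LipschitzWith.of_dist_le_mul
    intro x y
    rw [dist_eq_norm, ← AddCircle.coe_sub, NNReal.coe_one, one_mul, Real.dist_eq]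
    exact (QuotientAddGroup.norm_mk_le_norm (m := x - y)).trans (le_of_eq (Real.norm_eq_abs _))
  have h2 : (univ : Set UnitAddCircle) = (fun x : ℝ => (x : UnitAddCircle)) '' univ := by
    rw [image_univ]
    exact (range_eq_univ.2 (QuotientAddGroup.mk_surjective)).symm
  rw [h2]
  refine (h1.dimH_image_le univ).trans (le_of_eq ?_)
  rw [Real.dimH_of_nonempty_interior]
  · simp
  · rw [interior_univ]; exact univ_nonempty

/-- For every irrational number `α` there is a continuous function `φ` on the circle `ℝ / ℤ`, with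
integral zero, such that the set `D(α, φ)` of the points over which the orbits of the cylindrical
transformation `(x, t) ↦ (x + α, t + φ x)` are discrete has Hausdorff dimension one. Already its
subset `D^{-+}(α, φ)`, given by `φ^(n) (x) → +∞` for `n → +∞` and `φ^(n) (x) → -∞` for `n → -∞`,
has Hausdorff dimension one. -/
theorem result (α : ℝ) (hα : Irrational α) : ∃ φ : UnitAddCircle → ℝ, Continuous φ ∧
    ∫ x, φ x = 0 ∧ dimH (discreteSet (α : UnitAddCircle) φ) = 1 ∧
      dimH (discreteMinusPlus (α : UnitAddCircle) φ) = 1 := by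
  obtain ⟨Q, p, D⟩ := exists_data hα
  have h0 : (1 : ENNReal) ≤ dimH (discreteMinusPlus (α : UnitAddCircle) (f α Q p)) := by
    have hnorm : ∀ y ∈ Ico (0 : ℝ) 1, ‖((pt Q y : ℝ) : UnitAddCircle)‖ = pt Q y := by
      intro y hy
      obtain ⟨h1, h2⟩ := pt_bounds D.fast hy.1
      have h3 := (AddCircle.norm_coe_eq_abs_iff (x := pt Q y) (1 : ℝ) one_ne_zero).2
        (by rw [abs_of_nonneg h1, abs_one]; exact h2)
      rw [h3, abs_of_nonneg h1]
    have h1 : dimH (pt Q '' Ico 0 1)
        ≤ dimH ((fun x : ℝ => (x : UnitAddCircle)) '' (pt Q '' Ico 0 1)) := by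
      have h2 : pt Q '' Ico 0 1
          = norm '' ((fun x : ℝ => (x : UnitAddCircle)) '' (pt Q '' Ico 0 1)) := by
        ext x
        constructor
        · rintro ⟨y, hy, rfl⟩
          exact ⟨_, ⟨_, ⟨y, hy, rfl⟩, rfl⟩, hnorm y hy⟩
        · rintro ⟨_, ⟨_, ⟨y, hy, rfl⟩, rfl⟩, rfl⟩
          exact ⟨y, hy, (hnorm y hy).symm⟩
      conv_lhs => rw [h2]
      exact lipschitzWith_one_norm.dimH_image_le _
    refine ((one_le_dimH D.fast).trans h1).trans (dimH_mono ?_)
    rintro _ ⟨_, ⟨y, hy, rfl⟩, rfl⟩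
    exact good_mem D (good_pt D.fast hy.1)
  exact ⟨f α Q p, continuous_f D, integral_f D,
    le_antisymm (dimH_le_one _) (h0.trans (dimH_mono (minusPlus_subset _ _))),
    le_antisymm (dimH_le_one _) h0⟩

end Pool.Agent.Results.MP_7c4bf8_an.EveryIrrational
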